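import Pool.Agent.Helper58.QD.StF

/-!
# Project QD, module Stp: one step of the gradient descent of an almost convex function

Main theorem `Helper34.QD.hStp : StChr → StShp → StCmp → SStp`.
-/

set_option autoImplicit false
set_option maxSynthPendingDepth 3

namespace Pool.Agent.Helper34.QD

open Helper62.LH Helper62.DSH Helper58.QD MeasureTheory Set Filter Topology
open scoped ContDiff ENNReal

noncomputable section

/-! ### One variable -/

/-- first order Taylor estimate -/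
lemma t1 {f f' : ℝ → ℝ} {τ c : ℝ} (hτ : 0 ≤ τ)
    (hf : ∀ s ∈ Icc (0 : ℝ) τ, HasDerivAt f (f' s) s)
    (hc : ∀ s ∈ Icc (0 : ℝ) τ, |f' s - f' 0| ≤ c) : |f τ - f 0 - τ * f' 0| ≤ c * τ := by
  have h := Convex.norm_image_sub_le_of_norm_hasDerivWithin_le
    (f := fun s => f s - s * f' 0) (f' := fun s => f' s - f' 0) (s := Icc (0 : ℝ) τ)
    (x := 0) (y := τ) (C := c) ?_ ?_ (convex_Icc 0 τ) ⟨le_rfl, hτ⟩ ⟨hτ, le_rfl⟩
  · simp only [Real.norm_eq_abs, zero_mul, sub_zero] at h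
    rw [abs_of_nonneg hτ] at h
    have e : f τ - f 0 - τ * f' 0 = f τ - τ * f' 0 - f 0 := by ring
    rw [e]
    exact h
  · intro s hs
    have h1 : HasDerivAt (fun s : ℝ => s * f' 0) (1 * f' 0) s := (hasDerivAt_id s).mul_const (f' 0)
    have h2 := (hf s hs).sub h1
    rw [one_mul] at h2
    exact h2.hasDerivWithinAt
  · intro s hs
    rw [Real.norm_eq_abs]
    exact hc s hs

/-- a nonnegative smooth function has derivative zero at its zeros -/
lemma der_zero {ζ : ℝ → ℝ} (hp : ∀ s, 0 ≤ ζ s) {s : ℝ} (hs : ζ s = 0) : deriv ζ s = 0 := by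
  have h : IsLocalMin ζ s := by
    refine Filter.Eventually.of_forall fun y => ?_
    show ζ s ≤ ζ y
    rw [hs]
    exact hp y
  exact h.deriv_eq_zero

/-! ### Uniform estimates -/

/-- uniform continuity at `τ = 0` of a family of quadratic forms -/
lemma uqf {n : ℕ} (Ψ : E n → ℝ → E n → ℝ)
    (hc : Continuous (fun p : E n × ℝ × E n => Ψ p.1 p.2.1 p.2.2))
    (hh : ∀ x τ (c : ℝ) v, Ψ x τ (c • v) = c ^ 2 * Ψ x τ v) {K : Set (E n)} (hK : IsCompact K)
    {κ : ℝ} (hκ : 0 < κ) :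
    ∃ δ : ℝ, 0 < δ ∧ ∀ x ∈ K, ∀ τ : ℝ, 0 ≤ τ → τ ≤ δ → ∀ v, |Ψ x τ v - Ψ x 0 v| ≤ κ * ‖v‖ ^ 2 := by
  have hS : IsCompact (K ×ˢ (Icc (0 : ℝ) 1 ×ˢ Metric.closedBall (0 : E n) 1)) :=
    hK.prod (isCompact_Icc.prod (isCompact_closedBall _ _))
  have hu := hS.uniformContinuousOn_of_continuous hc.continuousOn
  rw [Metric.uniformContinuousOn_iff] at hu
  obtain ⟨δ, hδ, hu⟩ := hu κ hκ
  refine ⟨min (δ / 2) 1, lt_min (by positivity) one_pos, ?_⟩
  intro x hx τ h0 hτ v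
  have key : ∀ w : E n, ‖w‖ ≤ 1 → |Ψ x τ w - Ψ x 0 w| ≤ κ := by
    intro w hw
    have hw' : w ∈ Metric.closedBall (0 : E n) 1 := by simpa using hw
    have h1 : ((x, τ, w) : E n × ℝ × E n) ∈ K ×ˢ (Icc (0 : ℝ) 1 ×ˢ Metric.closedBall (0 : E n) 1) :=
      ⟨hx, ⟨h0, hτ.trans (min_le_right _ _)⟩, hw'⟩
    have h2 : ((x, 0, w) : E n × ℝ × E n) ∈ K ×ˢ (Icc (0 : ℝ) 1 ×ˢ Metric.closedBall (0 : E n) 1) :=
      ⟨hx, ⟨le_rfl, zero_le_one⟩, hw'⟩
    have h3 := hu _ h1 _ h2 (by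
      rw [Prod.dist_eq, Prod.dist_eq]
      simp only [dist_self]
      rw [Real.dist_eq, sub_zero, abs_of_nonneg h0]
      have : τ < δ := lt_of_le_of_lt (hτ.trans (min_le_left _ _)) (by linarith)
      simp [this, hδ])
    rw [Real.dist_eq] at h3
    exact h3.le
  rcases eq_or_ne v 0 with rfl | hv
  · have e1 := hh x τ 0 (0 : E n)
    have e2 := hh x 0 0 (0 : E n)
    simp only [smul_zero] at e1 e2
    rw [e1, e2]
    simp
  · have hn : 0 < ‖v‖ := norm_pos_iff.mpr hv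
    have h4 := key (‖v‖⁻¹ • v) (by rw [norm_smul, norm_inv, norm_norm, inv_mul_cancel₀ hn.ne'])
    have h5 : v = ‖v‖ • (‖v‖⁻¹ • v) := by rw [smul_smul, mul_inv_cancel₀ hn.ne', one_smul]
    have e : Ψ x τ v - Ψ x 0 v = ‖v‖ ^ 2 * (Ψ x τ (‖v‖⁻¹ • v) - Ψ x 0 (‖v‖⁻¹ • v)) := by
      rw [mul_sub, ← hh, ← hh, ← h5]
    rw [e, abs_mul, abs_of_nonneg (sq_nonneg _), mul_comm]
    exact mul_le_mul_of_nonneg_right h4 (sq_nonneg _)

/-! ### The vector field -/

/-- the covector of `gX` -/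
def thx {n : ℕ} (ζ : ℝ → ℝ) (b : E n → ℝ) (x : E n) : Dl n := (-(ζ (b x))) • fderiv ℝ b x

lemma nondeg {n : ℕ} {g : E n → Bl n} (hg : IsMet g) (x : E n) {w w' : E n}
    (h : ∀ v, g x w v = g x w' v) : w = w' := by
  by_contra hne
  have h1 := hg.pos x (w - w') (sub_ne_zero.mpr hne)
  have h2 : g x (w - w') (w - w') = 0 := by
    have h3 : g x (w - w') = g x w - g x w' := map_sub _ _ _
    rw [h3, sub_apply, h, sub_self]
  rw [h2] at h1
  exact lt_irrefl _ h1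

lemma gnn {n : ℕ} {g : E n → Bl n} (hg : IsMet g) (x v : E n) : 0 ≤ g x v v := by
  rcases eq_or_ne v 0 with rfl | hv
  · simp
  · exact (hg.pos x v hv).le

lemma thx_smooth {n : ℕ} {ζ : ℝ → ℝ} {b : E n → ℝ} (hb : ContDiff ℝ ∞ b) (hζ : ContDiff ℝ ∞ ζ) :
    ContDiff ℝ ∞ (thx ζ b) := by
  have h1 : ContDiff ℝ ∞ (fun x => -(ζ (b x))) := (hζ.comp hb).neg
  have h2 : ContDiff ℝ ∞ (fderiv ℝ b) := hb.fderiv_right (by simp)
  exact h1.smul h2

lemma thx_deriv {n : ℕ} {ζ : ℝ → ℝ} {b : E n → ℝ} (hb : ContDiff ℝ ∞ b) (hζ : ContDiff ℝ ∞ ζ)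
    (x u v : E n) : fderiv ℝ (thx ζ b) x u v =
      -(ζ (b x)) * fderiv ℝ (fderiv ℝ b) x u v - deriv ζ (b x) * fderiv ℝ b x u * fderiv ℝ b x v := by
  have hζd : HasDerivAt ζ (deriv ζ (b x)) (b x) :=
    ((hζ.differentiable (by simp)) (b x)).hasDerivAt
  have hbd : HasFDerivAt b (fderiv ℝ b x) x := ((hb.differentiable (by simp)) x).hasFDerivAt
  have h1 : HasFDerivAt (fun x => -(ζ (b x))) (-(deriv ζ (b x) • fderiv ℝ b x)) x :=
    (hζd.comp_hasFDerivAt x hbd).neg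
  have h2 : ContDiff ℝ ∞ (fderiv ℝ b) := hb.fderiv_right (by simp)
  have h3 : HasFDerivAt (fderiv ℝ b) (fderiv ℝ (fderiv ℝ b) x) x :=
    ((h2.differentiable (by simp)) x).hasFDerivAt
  have h4 := h1.smul h3
  have h5 : fderiv ℝ (thx ζ b) x = _ := h4.fderiv
  rw [h5]
  simp only [add_apply, smul_apply,
    ContinuousLinearMap.smulRight_apply, neg_apply, smul_eq_mul]
  ring

lemma gX_eq {n : ℕ} {g : E n → Bl n} (hg : IsMet g)
    (hsh : ∀ x (a : Dl n) v, g x (shp g x a) v = a v) (ζ : ℝ → ℝ) (b : E n → ℝ) :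
    gX g ζ b = fun x => shp g x (thx ζ b x) := by
  funext x
  refine nondeg hg x fun v => ?_
  rw [hsh]
  unfold gX thx
  rw [map_neg, neg_apply, map_smul, smul_apply, hsh, smul_apply]
  simp

lemma gs_eq {n : ℕ} {g : E n → Bl n} (hsh : ∀ x (a : Dl n) v, g x (shp g x a) v = a v)
    (hip : ∀ x (a b : Dl n), ip g x a b = a (shp g x b)) (b : E n → ℝ) (x : E n) :
    gs g b x = g x (shp g x (fderiv ℝ b x)) (shp g x (fderiv ℝ b x)) := by
  unfold gs
  rw [hip, hsh]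

lemma db_X {n : ℕ} {g : E n → Bl n} (hip : ∀ x (a b : Dl n), ip g x a b = a (shp g x b))
    (ζ : ℝ → ℝ) (b : E n → ℝ) (x : E n) :
    fderiv ℝ b x (gX g ζ b x) = -(ζ (b x) * gs g b x) := by
  unfold gX gs
  rw [hip, map_neg, map_smul, smul_eq_mul]

lemma g_XX {n : ℕ} {g : E n → Bl n} (hsh : ∀ x (a : Dl n) v, g x (shp g x a) v = a v)
    (hip : ∀ x (a b : Dl n), ip g x a b = a (shp g x b)) (ζ : ℝ → ℝ) (b : E n → ℝ) (x : E n) :
    g x (gX g ζ b x) (gX g ζ b x) = ζ (b x) ^ 2 * gs g b x := by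
  rw [gs_eq hsh hip]
  unfold gX
  have e : -(ζ (b x) • shp g x (fderiv ℝ b x)) = (-(ζ (b x))) • shp g x (fderiv ℝ b x) := by
    rw [neg_smul]
  rw [e]
  simp only [map_smul, smul_apply, smul_eq_mul]
  ring

lemma dX_zero {n : ℕ} {g : E n → Bl n}
    (hsm : ∀ θ : E n → Dl n, ContDiff ℝ ∞ θ → ContDiff ℝ ∞ (fun x => shp g x (θ x)))
    {ζ : ℝ → ℝ} {b : E n → ℝ} (hb : ContDiff ℝ ∞ b) (hζ : ContDiff ℝ ∞ ζ)
    (hp : ∀ s, 0 ≤ ζ s) {x : E n} (hx : ζ (b x) = 0) :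
    gX g ζ b x = 0 ∧ fderiv ℝ (gX g ζ b) x = 0 := by
  have h2 : ContDiff ℝ ∞ (fderiv ℝ b) := hb.fderiv_right (by simp)
  have hS := hsm _ h2
  constructor
  · unfold gX
    rw [hx, zero_smul, neg_zero]
  have hζd : HasDerivAt ζ (deriv ζ (b x)) (b x) :=
    ((hζ.differentiable (by simp)) (b x)).hasDerivAt
  rw [der_zero hp hx] at hζd
  have hbd : HasFDerivAt b (fderiv ℝ b x) x := ((hb.differentiable (by simp)) x).hasFDerivAt
  have h1 : HasFDerivAt (fun x => ζ (b x)) ((0 : ℝ) • fderiv ℝ b x) x :=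
    hζd.comp_hasFDerivAt x hbd
  have h3 : HasFDerivAt (fun x => shp g x (fderiv ℝ b x)) _ x :=
    ((hS.differentiable (by simp)) x).hasFDerivAt
  have h4 := (h1.smul h3).neg
  have h5 : fderiv ℝ (gX g ζ b) x = _ := h4.fderiv
  rw [h5, hx]
  ext v
  simp

/-! ### Estimates -/

/-- second order Taylor estimate of a function along a vector field -/
lemma phi {n : ℕ} {b : E n → ℝ} (hb : ContDiff ℝ ∞ b) {K : Set (E n)} (hK : IsCompact K)
    {X : E n → E n} (hX : Continuous X) : ∃ L : ℝ, 0 < L ∧ ∀ x ∈ K, ∀ τ : ℝ, 0 ≤ τ → τ ≤ 1 →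
      |b (x + τ • X x) - b x - τ * fderiv ℝ b x (X x)| ≤ L * ‖X x‖ ^ 2 * τ ^ 2 := by
  obtain ⟨R, hR⟩ := hK.isBounded.exists_norm_le
  obtain ⟨N, hN⟩ := hK.exists_bound_of_continuousOn hX.continuousOn
  have h2 : ContDiff ℝ ∞ (fderiv ℝ b) := hb.fderiv_right (by simp)
  have h3 : ContDiff ℝ ∞ (fderiv ℝ (fderiv ℝ b)) := h2.fderiv_right (by simp)
  obtain ⟨L, hL⟩ := (isCompact_closedBall (0 : E n) (R + N)).exists_bound_of_continuousOn
    h3.continuous.continuousOn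
  refine ⟨max L 1, lt_max_of_lt_right one_pos, ?_⟩
  intro x hx τ h0 h1
  have hmem : ∀ s ∈ Icc (0 : ℝ) τ, x + s • X x ∈ Metric.closedBall (0 : E n) (R + N) := by
    intro s hs
    rw [mem_closedBall_zero_iff]
    have hs1 : |s| ≤ 1 := by rw [abs_of_nonneg hs.1]; exact hs.2.trans h1
    calc ‖x + s • X x‖ ≤ ‖x‖ + ‖s • X x‖ := norm_add_le _ _
      _ = ‖x‖ + |s| * ‖X x‖ := by rw [norm_smul, Real.norm_eq_abs]
      _ ≤ R + 1 * N := add_le_add (hR x hx)
          (mul_le_mul hs1 (hN x hx) (norm_nonneg _) zero_le_one)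
      _ = R + N := by ring
  have hx0 : x ∈ Metric.closedBall (0 : E n) (R + N) := by
    have := hmem 0 ⟨le_rfl, h0⟩
    rwa [zero_smul, add_zero] at this
  have hd : ∀ s ∈ Icc (0 : ℝ) τ,
      HasDerivAt (fun s : ℝ => b (x + s • X x)) (fderiv ℝ b (x + s • X x) (X x)) s := by
    intro s _
    have e1 : HasDerivAt (fun s : ℝ => x + s • X x) (X x) s := by
      have := ((hasDerivAt_id s).smul_const (X x)).const_add x
      simpa using this
    have e2 : HasFDerivAt b (fderiv ℝ b (x + s • X x)) (x + s • X x) :=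
      ((hb.differentiable (by simp)) _).hasFDerivAt
    exact e2.comp_hasDerivAt s e1
  have hbd : ∀ s ∈ Icc (0 : ℝ) τ, |fderiv ℝ b (x + s • X x) (X x) -
      fderiv ℝ b (x + (0 : ℝ) • X x) (X x)| ≤ max L 1 * ‖X x‖ ^ 2 * τ := by
    intro s hs
    have e1 := (convex_closedBall (0 : E n) (R + N)).norm_image_sub_le_of_norm_fderiv_le
      (f := fderiv ℝ b) (C := max L 1) (𝕜 := ℝ)
      (fun y _ => (h2.differentiable (by simp)) y)
      (fun y hy => (hL y hy).trans (le_max_left _ _)) hx0 (hmem s hs)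
    have e2 : x + s • X x - x = s • X x := by abel
    rw [e2, norm_smul, Real.norm_eq_abs, abs_of_nonneg hs.1] at e1
    rw [zero_smul, add_zero, ← sub_apply, ← Real.norm_eq_abs]
    have hL0 : 0 ≤ max L 1 := le_max_of_le_right zero_le_one
    calc ‖(fderiv ℝ b (x + s • X x) - fderiv ℝ b x) (X x)‖
        ≤ ‖fderiv ℝ b (x + s • X x) - fderiv ℝ b x‖ * ‖X x‖ := ContinuousLinearMap.le_opNorm _ _
      _ ≤ (max L 1 * (s * ‖X x‖)) * ‖X x‖ := mul_le_mul_of_nonneg_right e1 (norm_nonneg _)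
      _ = max L 1 * ‖X x‖ ^ 2 * s := by ring
      _ ≤ max L 1 * ‖X x‖ ^ 2 * τ :=
          mul_le_mul_of_nonneg_left hs.2 (mul_nonneg hL0 (sq_nonneg _))
  have h := t1 h0 hd hbd
  simp only [zero_smul, add_zero] at h
  calc _ ≤ max L 1 * ‖X x‖ ^ 2 * τ * τ := h
    _ = _ := by ring

/-- linear bound of the cut off function -/
lemma zlin {ζ : ℝ → ℝ} (hζ : ContDiff ℝ ∞ ζ) {t0 : ℝ} (h0 : ζ t0 = 0) (B : ℝ) :
    ∃ C : ℝ, 0 ≤ C ∧ ∀ s, t0 ≤ s → s ≤ B → ζ s ≤ C * (s - t0) := by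
  have hd : Continuous (deriv ζ) := hζ.continuous_deriv (by simp)
  obtain ⟨C, hC⟩ := (isCompact_Icc (a := t0) (b := B)).exists_bound_of_continuousOn hd.continuousOn
  refine ⟨max C 0, le_max_right _ _, fun s hs hB => ?_⟩
  have h := (convex_Icc t0 B).norm_image_sub_le_of_norm_deriv_le (f := ζ) (C := max C 0)
    (fun y _ => (hζ.differentiable (by simp)) y)
    (fun y hy => (hC y hy).trans (le_max_left _ _)) (x := t0) (y := s)
    ⟨le_rfl, hs.trans hB⟩ ⟨hs, hB⟩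
  rw [h0, sub_zero, Real.norm_eq_abs, Real.norm_eq_abs, abs_of_nonneg (sub_nonneg.mpr hs)] at h
  exact (le_abs_self _).trans h

/-- the derivative of the pulled back metric -/
def Pc {n : ℕ} (G : E n → Bl n) (G' : E n → E n →L[ℝ] Bl n) (X : E n → E n)
    (X' : E n → E n →L[ℝ] E n) (x : E n) (τ : ℝ) (v : E n) : ℝ :=
  G' (x + τ • X x) (X x) (v + τ • X' x v) (v + τ • X' x v) +
    2 * G (x + τ • X x) (X' x v) (v + τ • X' x v)

lemma Pc_cont {n : ℕ} {G : E n → Bl n} {G' : E n → E n →L[ℝ] Bl n} {X : E n → E n}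
    {X' : E n → E n →L[ℝ] E n} (h1 : Continuous G) (h2 : Continuous G') (h3 : Continuous X)
    (h4 : Continuous X') :
    Continuous (fun p : E n × ℝ × E n => Pc G G' X X' p.1 p.2.1 p.2.2) := by
  unfold Pc
  fun_prop

lemma Pc_hom {n : ℕ} (G : E n → Bl n) (G' : E n → E n →L[ℝ] Bl n) (X : E n → E n)
    (X' : E n → E n →L[ℝ] E n) (x : E n) (τ c : ℝ) (v : E n) :
    Pc G G' X X' x τ (c • v) = c ^ 2 * Pc G G' X X' x τ v := by
  have e : c • v + τ • X' x (c • v) = c • (v + τ • X' x v) := by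
    rw [map_smul, smul_add, smul_comm τ c]
  unfold Pc
  rw [e]
  simp only [map_smul, smul_apply, smul_eq_mul]
  ring

lemma Pc_der {n : ℕ} {g : E n → Bl n} (hg : IsMet g) {X : E n → E n} (x v : E n) (τ : ℝ) :
    HasDerivAt (fun τ : ℝ => g (x + τ • X x) (v + τ • fderiv ℝ X x v) (v + τ • fderiv ℝ X x v))
      (Pc g (fderiv ℝ g) X (fderiv ℝ X) x τ v) τ := by
  have e1 : HasDerivAt (fun s : ℝ => x + s • X x) (X x) τ := by
    have := ((hasDerivAt_id τ).smul_const (X x)).const_add x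
    simpa using this
  have e2 : HasDerivAt (fun s : ℝ => v + s • fderiv ℝ X x v) (fderiv ℝ X x v) τ := by
    have := ((hasDerivAt_id τ).smul_const (fderiv ℝ X x v)).const_add v
    simpa using this
  have e3 : HasFDerivAt g (fderiv ℝ g (x + τ • X x)) (x + τ • X x) :=
    ((hg.smooth.differentiable (by simp)) _).hasFDerivAt
  have e4 := e3.comp_hasDerivAt τ e1
  have e5 := (e4.clm_apply e2).clm_apply e2
  refine e5.congr_deriv ?_
  unfold Pc
  simp only [add_apply, Function.comp]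
  rw [hg.symm (x + τ • X x) (v + τ • fderiv ℝ X x v) (fderiv ℝ X x v)]
  ring

/-- the derivative at time zero is the covariant derivative of `thx` -/
lemma Pc_zero {n : ℕ} {g : E n → Bl n} {Γ : E n → Bm n} (hg : IsMet g)
    (hG1 : ∀ x u v, Γ x u v = Γ x v u)
    (hG2 : ∀ x w u v, fderiv ℝ g x w u v = g x (Γ x w u) v + g x u (Γ x w v))
    (hsh : ∀ x (a : Dl n) v, g x (shp g x a) v = a v)
    (hcf : ∀ θ : E n → Dl n, ContDiff ℝ 1 θ → ∀ x u v,
      g x (fderiv ℝ (fun y => shp g y (θ y)) x u + Γ x u (shp g x (θ x))) v = cf Γ θ x u v)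
    {b : E n → ℝ} {ζ : ℝ → ℝ} {ε0 : ℝ} (hb : ContDiff ℝ ∞ b) (hζ : ContDiff ℝ ∞ ζ)
    (hmo : Monotone ζ) (h01 : ∀ s, 0 ≤ ζ s ∧ ζ s ≤ 1) (he0 : 0 ≤ ε0)
    (hHs : ∀ x v, -(ε0 * g x v v) ≤ Hs Γ b x v v) (x v : E n) :
    Pc g (fderiv ℝ g) (gX g ζ b) (fderiv ℝ (gX g ζ b)) x 0 v ≤ 2 * ε0 * g x v v := by
  have hX := gX_eq hg hsh ζ b
  have h1 := hcf (thx ζ b) ((thx_smooth hb hζ).of_le (by simp)) x v v
  have h2 : shp g x (thx ζ b x) = gX g ζ b x := by rw [hX]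
  rw [← hX, h2, map_add, add_apply] at h1
  have h3 : Pc g (fderiv ℝ g) (gX g ζ b) (fderiv ℝ (gX g ζ b)) x 0 v =
      2 * cf Γ (thx ζ b) x v v := by
    unfold Pc
    simp only [zero_smul, add_zero]
    rw [hG2, hg.symm x v (Γ x (gX g ζ b x) v), hG1 x (gX g ζ b x) v, ← h1]
    ring
  rw [h3]
  have h4 : cf Γ (thx ζ b) x v v = -(ζ (b x) * Hs Γ b x v v) -
      deriv ζ (b x) * fderiv ℝ b x v ^ 2 := by
    unfold cf Hs
    rw [thx_deriv hb hζ]
    unfold thx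
    rw [smul_apply, smul_eq_mul]
    ring
  have h5 : 0 ≤ deriv ζ (b x) := hmo.deriv_nonneg
  have h6 : 0 ≤ deriv ζ (b x) * fderiv ℝ b x v ^ 2 := mul_nonneg h5 (sq_nonneg _)
  have h7 : -(ζ (b x) * Hs Γ b x v v) ≤ ζ (b x) * (ε0 * g x v v) := by
    have := mul_le_mul_of_nonneg_left (hHs x v) (h01 (b x)).1
    linarith
  have h8 : ζ (b x) * (ε0 * g x v v) ≤ 1 * (ε0 * g x v v) :=
    mul_le_mul_of_nonneg_right (h01 (b x)).2 (mul_nonneg he0 (gnn hg x v))
  rw [h4]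
  linarith

/-- Stp: one step of the gradient descent of an almost convex function -/
theorem hStp : StChr → StShp → StCmp → SStp := by
  intro hChr hShp hCmp n g Γ hg hΓ b ζ t0 ε0 ε hb hζ hmo h01 hz0 he0 he hHs K hK
  obtain ⟨-, hG1, hG2⟩ := hChr n g Γ hg hΓ
  obtain ⟨hsh, hip, -, hsm, -, hcf⟩ := hShp n g Γ hg hΓ
  have hX := gX_eq hg hsh ζ b
  have hXs : ContDiff ℝ ∞ (gX g ζ b) := by
    rw [hX]
    exact hsm _ (thx_smooth hb hζ)
  have hp : ∀ s, 0 ≤ ζ s := fun s => (h01 s).1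
  refine ⟨hXs, g_XX hsh hip ζ b, fun x hx => dX_zero hsm hb hζ hp (hz0 _ hx), ?_⟩
  have hXc : Continuous (gX g ζ b) := hXs.continuous
  have hX'c : Continuous (fderiv ℝ (gX g ζ b)) := (hXs.fderiv_right (m := ∞) (by simp)).continuous
  have hgc : Continuous g := hg.smooth.continuous
  have hg'c : Continuous (fderiv ℝ g) := (hg.smooth.fderiv_right (m := ∞) (by simp)).continuous
  obtain ⟨m, M, hm, -, hmM⟩ := hCmp n g hg K hK
  obtain ⟨L, hL, hphi⟩ := phi hb hK hXc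
  obtain ⟨B, hB⟩ := hK.exists_bound_of_continuousOn hb.continuous.continuousOn
  obtain ⟨C1, hC1, hzl⟩ := zlin hζ (hz0 t0 le_rfl) B
  have h2 : ContDiff ℝ ∞ (fderiv ℝ b) := hb.fderiv_right (by simp)
  have hS : Continuous (fun x => shp g x (fderiv ℝ b x)) := (hsm _ h2).continuous
  have hgs : Continuous (gs g b) := by
    have e : gs g b = fun x => g x (shp g x (fderiv ℝ b x)) (shp g x (fderiv ℝ b x)) :=
      funext fun x => gs_eq hsh hip b x
    rw [e]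
    exact (hgc.clm_apply hS).clm_apply hS
  have hgs0 : ∀ x, 0 ≤ gs g b x := fun x => by
    rw [gs_eq hsh hip]
    exact gnn hg _ _
  obtain ⟨Cg, hCg⟩ := hK.exists_bound_of_continuousOn hgs.continuousOn
  obtain ⟨δ1, hδ1, hc1⟩ := uqf (Pc g (fderiv ℝ g) (gX g ζ b) (fderiv ℝ (gX g ζ b)))
    (Pc_cont hgc hg'c hXc hX'c) (Pc_hom _ _ _ _) hK (κ := 2 * ε * m) (by positivity)
  obtain ⟨δ2, hδ2, hc2⟩ := uqf (fun x τ v => g (x + τ • gX g ζ b x) v v)
    (by fun_prop) (fun x τ c v => by simp only [map_smul, smul_apply, smul_eq_mul]; ring) hK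
    (κ := m) hm
  -- the quadratic form
  have hQ : ∀ x ∈ K, ∀ τ : ℝ, 0 ≤ τ → τ ≤ δ1 → ∀ v,
      g (x + τ • gX g ζ b x) (v + τ • fderiv ℝ (gX g ζ b) x v) (v + τ • fderiv ℝ (gX g ζ b) x v) ≤
        (1 + 2 * τ * (ε0 + ε)) * g x v v := by
    intro x hx τ h0 h1 v
    have e1 := t1 h0 (fun s _ => Pc_der hg (X := gX g ζ b) x v s)
      (fun s hs => hc1 x hx s hs.1 (hs.2.trans h1) v)
    simp only [zero_smul, add_zero] at e1
    have e2 := (abs_le.mp e1).2
    have e3 := Pc_zero hg hG1 hG2 hsh hcf hb hζ hmo h01 he0 hHs x v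
    have e4 := mul_le_mul_of_nonneg_left e3 h0
    have e5 := mul_le_mul_of_nonneg_left (hmM x hx v).1 (mul_nonneg he.le h0)
    nlinarith [e2, e4, e5]
  -- the function
  have hF : ∀ x ∈ K, ∀ τ : ℝ, 0 ≤ τ → τ ≤ 1 → L * τ ≤ m / 2 →
      |b (x + τ • gX g ζ b x) - b x + τ * (ζ (b x) * gs g b x)| ≤
        τ / 2 * (ζ (b x) * gs g b x) := by
    intro x hx τ h0 h1 h3
    have e1 := hphi x hx τ h0 h1
    rw [db_X hip] at e1
    have e2 := (hmM x hx (gX g ζ b x)).1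
    rw [g_XX hsh hip] at e2
    have e3 : ζ (b x) ^ 2 * gs g b x ≤ ζ (b x) * gs g b x := by
      have : ζ (b x) ^ 2 ≤ ζ (b x) := by nlinarith [(h01 (b x)).1, (h01 (b x)).2]
      exact mul_le_mul_of_nonneg_right this (hgs0 x)
    have e4 : L * ‖gX g ζ b x‖ ^ 2 * τ ^ 2 ≤ τ / 2 * (ζ (b x) * gs g b x) := by
      have f1 : L * τ * ‖gX g ζ b x‖ ^ 2 ≤ m / 2 * ‖gX g ζ b x‖ ^ 2 :=
        mul_le_mul_of_nonneg_right h3 (sq_nonneg _)
      have f2 : L * τ * ‖gX g ζ b x‖ ^ 2 ≤ ζ (b x) * gs g b x / 2 := by linarith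
      have f3 := mul_le_mul_of_nonneg_left f2 h0
      calc L * ‖gX g ζ b x‖ ^ 2 * τ ^ 2 = τ * (L * τ * ‖gX g ζ b x‖ ^ 2) := by ring
        _ ≤ τ * (ζ (b x) * gs g b x / 2) := f3
        _ = _ := by ring
    calc |b (x + τ • gX g ζ b x) - b x + τ * (ζ (b x) * gs g b x)|
        = |b (x + τ • gX g ζ b x) - b x - τ * -(ζ (b x) * gs g b x)| := by
          congr 1; ring
      _ ≤ _ := e1
      _ ≤ _ := e4
  -- the step size
  have hd1 : 0 < C1 * |Cg| + 1 := by positivity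
  refine ⟨min (min 1 (m / (2 * L))) (min (min δ1 δ2)
    (min (1 / (2 * (C1 * |Cg| + 1))) (3 / (2 * (ε0 + ε))))), by positivity, ?_⟩
  intro h hh0 hh x hx
  have k1 : h ≤ 1 := hh.trans ((min_le_left _ _).trans (min_le_left _ _))
  have k2 : h ≤ m / (2 * L) := hh.trans ((min_le_left _ _).trans (min_le_right _ _))
  have k3 : h ≤ δ1 := hh.trans ((min_le_right _ _).trans ((min_le_left _ _).trans (min_le_left _ _)))
  have k4 : h ≤ δ2 := hh.trans ((min_le_right _ _).trans ((min_le_left _ _).trans (min_le_right _ _)))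
  have k5 : h ≤ 1 / (2 * (C1 * |Cg| + 1)) :=
    hh.trans ((min_le_right _ _).trans ((min_le_right _ _).trans (min_le_left _ _)))
  have k6 : h ≤ 3 / (2 * (ε0 + ε)) :=
    hh.trans ((min_le_right _ _).trans ((min_le_right _ _).trans (min_le_right _ _)))
  have k2' : L * h ≤ m / 2 := by
    have := mul_le_mul_of_nonneg_left k2 hL.le
    calc L * h ≤ L * (m / (2 * L)) := this
      _ = m / 2 := by field_simp
  have k5' : h * (C1 * |Cg| + 1) ≤ 1 / 2 := by
    have := mul_le_mul_of_nonneg_right k5 hd1.le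
    calc _ ≤ _ := this
      _ = 1 / 2 := by field_simp
  have k6' : h * (ε0 + ε) ≤ 3 / 2 := by
    have hpos : 0 < ε0 + ε := by positivity
    have := mul_le_mul_of_nonneg_right k6 hpos.le
    calc _ ≤ _ := this
      _ = 3 / 2 := by field_simp
  have hzg : 0 ≤ ζ (b x) * gs g b x := mul_nonneg (h01 _).1 (hgs0 x)
  have hdY : ∀ (s : ℝ) (v : E n), dY (fun y => h • gX g ζ b y) s x v =
      v + (s * h) • fderiv ℝ (gX g ζ b) x v := by
    intro s v
    unfold dY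
    have e : fderiv ℝ (fun y => h • gX g ζ b y) x = h • fderiv ℝ (gX g ζ b) x :=
      fderiv_fun_const_smul ((hXs.differentiable (by simp)) x) h
    rw [e, add_apply, smul_apply, smul_apply, smul_smul]
    rfl
  refine ⟨?_, ?_, ?_⟩
  · intro s hs
    have s0 : 0 ≤ s * h := mul_nonneg hs.1 hh0.le
    have s1 : s * h ≤ h := by
      have := mul_le_mul_of_nonneg_right hs.2 hh0.le
      linarith
    have s2 : L * (s * h) ≤ m / 2 := (mul_le_mul_of_nonneg_left s1 hL.le).trans k2'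
    have f := abs_le.mp (hF x hx (s * h) s0 (s1.trans k1) s2)
    have f0 : 0 ≤ s * h * (ζ (b x) * gs g b x) := mul_nonneg s0 hzg
    rw [smul_smul]
    refine ⟨?_, ?_, ?_, ?_⟩
    · linarith [f.2]
    · intro hbt
      have hbB : b x ≤ B := (le_abs_self _).trans (hB x hx)
      have z1 := hzl (b x) hbt hbB
      have z2 : gs g b x ≤ |Cg| := ((le_abs_self _).trans (hCg x hx)).trans (le_abs_self _)
      have z3 : ζ (b x) * gs g b x ≤ C1 * (b x - t0) * |Cg| :=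
        mul_le_mul z1 z2 (hgs0 x) (mul_nonneg hC1 (sub_nonneg.mpr hbt))
      have z4 : s * h * (ζ (b x) * gs g b x) ≤ h * (C1 * (b x - t0) * |Cg|) :=
        mul_le_mul s1 z3 hzg hh0.le
      have z5 : h * (C1 * (b x - t0) * |Cg|) ≤ (b x - t0) / 2 := by
        have hbt' : 0 ≤ b x - t0 := sub_nonneg.mpr hbt
        have z6 := mul_le_mul_of_nonneg_right k5' hbt'
        have z7 : 0 ≤ h * (b x - t0) := mul_nonneg hh0.le hbt'
        nlinarith [z6, z7]
      linarith [f.1, z4, z5]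
    · intro v
      rw [hdY]
      refine (hQ x hx (s * h) s0 (s1.trans k3) v).trans ?_
      refine mul_le_mul_of_nonneg_right ?_ (gnn hg x v)
      have : s * h * (ε0 + ε) ≤ h * (ε0 + ε) :=
        mul_le_mul_of_nonneg_right s1 (by positivity)
      linarith
    · have e1 := (abs_le.mp (hc2 x hx (s * h) s0 (s1.trans k4) (gX g ζ b x))).2
      simp only [zero_smul, add_zero] at e1
      have e2 := (hmM x hx (gX g ζ b x)).1
      have e3 := gnn hg x (gX g ζ b x)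
      linarith
  · have f := abs_le.mp (hF x hx h hh0.le k1 k2')
    have e : h / 2 * (ζ (b x) * gs g b x) = h * (ζ (b x) * gs g b x) / 2 := by ring
    linarith [f.2]
  · intro v
    rw [hdY, one_mul]
    exact hQ x hx h hh0.le k3 v

end

end Pool.Agent.Helper34.QD
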