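import Pool.Agent.Helper20.QD.St5
import Pool.Agent.Helper68.QC.Cal

open Filter Topology Set Metric MeasureTheory
open scoped ComplexConjugate

namespace Pool.Agent.Helper34.QD

open Pool.Agent.Helper35.PM Pool.Agent.Helper20.QD

lemma fd_eq (f : ℂ → ℂ) (z v : ℂ) :
    fderiv ℝ f z v = dz f z * v + dzb f z * conj v :=
  Pool.Agent.Helper68.QC.fderiv_eq f z v

/-- polar coordinates -/
noncomputable def pm (p : ℝ × ℝ) : ℂ := p.1 * Complex.exp (p.2 * Complex.I)

lemma exp_smooth : ContDiff ℝ 1 (fun p : ℝ × ℝ => Complex.exp (p.2 * Complex.I)) := by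
  have h2 : ContDiff ℝ 1 (fun p : ℝ × ℝ => (p.2 : ℂ)) := Complex.ofRealCLM.contDiff.comp contDiff_snd
  exact (h2.mul contDiff_const).cexp

lemma pm_smooth : ContDiff ℝ 1 pm := by
  have h1 : ContDiff ℝ 1 (fun p : ℝ × ℝ => (p.1 : ℂ)) := Complex.ofRealCLM.contDiff.comp contDiff_fst
  exact h1.mul exp_smooth

lemma green_key (F : ℂ → ℂ) (hF : ContDiff ℝ 1 F) (p : ℝ × ℝ) :
    fderiv ℝ (fun p => Complex.I * pm p * F (pm p)) p (1, 0) +
      fderiv ℝ (fun p : ℝ × ℝ => - (Complex.exp (p.2 * Complex.I) * F (pm p))) p (0, 1) =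
      2 * Complex.I * (p.1 * dzb F (pm p)) := by
  obtain ⟨r, θ⟩ := p
  have hFd := (hF.differentiable one_ne_zero (pm (r, θ))).hasFDerivAt
  have h1 : HasDerivAt (fun s : ℝ => pm (s, θ)) (Complex.exp (θ * Complex.I)) r := by
    unfold pm
    simpa using (Complex.ofRealCLM.hasDerivAt (x := r)).mul_const (Complex.exp (θ * Complex.I))
  have h0 : HasDerivAt (fun s : ℝ => Complex.exp (s * Complex.I))
      (Complex.exp (θ * Complex.I) * Complex.I) θ := by
    simpa using ((Complex.ofRealCLM.hasDerivAt (x := θ)).mul_const Complex.I).cexp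
  have h2 : HasDerivAt (fun s : ℝ => pm (r, s)) (Complex.I * pm (r, θ)) θ := by
    have := h0.const_mul (r : ℂ)
    unfold pm
    refine this.congr_deriv ?_
    simp only
    ring
  have h3 : HasDerivAt (fun s : ℝ => F (pm (s, θ)))
      (fderiv ℝ F (pm (r, θ)) (Complex.exp (θ * Complex.I))) r :=
    HasFDerivAt.comp_hasDerivAt r hFd h1
  have h4 : HasDerivAt (fun s : ℝ => F (pm (r, s)))
      (fderiv ℝ F (pm (r, θ)) (Complex.I * pm (r, θ))) θ :=
    HasFDerivAt.comp_hasDerivAt θ hFd h2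
  have h5 := (h1.const_mul Complex.I).mul h3
  have h6 := (h0.mul h4).neg
  have hfs : ContDiff ℝ 1 (fun p => Complex.I * pm p * F (pm p)) :=
    (contDiff_const.mul pm_smooth).mul (hF.comp pm_smooth)
  have hgs : ContDiff ℝ 1 (fun p : ℝ × ℝ => - (Complex.exp (p.2 * Complex.I) * F (pm p))) :=
    (exp_smooth.mul (hF.comp pm_smooth)).neg
  have h7 := (hfs.differentiable one_ne_zero (r, θ)).hasFDerivAt.comp_hasDerivAt r
    ((hasDerivAt_id r).prodMk (hasDerivAt_const r θ))
  have h8 := (hgs.differentiable one_ne_zero (r, θ)).hasFDerivAt.comp_hasDerivAt θ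
    ((hasDerivAt_const θ r).prodMk (hasDerivAt_id θ))
  have e7 := h7.unique h5
  have e8 := h8.unique h6
  rw [e7, e8, fd_eq, fd_eq]
  have hE : Complex.exp (θ * Complex.I) * conj (Complex.exp (θ * Complex.I)) = 1 := by
    rw [← Complex.exp_conj, ← Complex.exp_add]
    simp
  simp only [pm, map_mul, Complex.conj_I, Complex.conj_ofReal]
  linear_combination (2 * Complex.I * r * dzb F (r * Complex.exp (θ * Complex.I))) * hE

lemma dzb_cont {F : ℂ → ℂ} (hF : ContDiff ℝ 1 F) : Continuous (dzb F) := by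
  have h1 : Continuous (fderiv ℝ F) := hF.continuous_fderiv one_ne_zero
  unfold dzb
  exact ((h1.clm_apply continuous_const).add
    (continuous_const.mul (h1.clm_apply continuous_const))).div_const 2

lemma polar_ball (G : ℂ → ℂ) (R : ℝ) :
    ∫ p in Ioo (0 : ℝ) R ×ˢ Ioo (-Real.pi) Real.pi, (p.1 : ℂ) * G (pm p) =
      ∫ t in ball (0 : ℂ) R, G t := by
  have h1 := Complex.integral_comp_polarCoord_symm ((ball (0 : ℂ) R).indicator G)
  rw [integral_indicator measurableSet_ball] at h1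
  rw [← h1]
  have hT : polarCoord.target = Ioi (0 : ℝ) ×ˢ Ioo (-Real.pi) Real.pi := rfl
  have hsub : Ioo (0 : ℝ) R ×ˢ Ioo (-Real.pi) Real.pi ⊆ polarCoord.target := by
    rw [hT]
    exact prod_mono (fun x hx => hx.1) subset_rfl
  have hm : MeasurableSet (Ioo (0 : ℝ) R ×ˢ Ioo (-Real.pi) Real.pi) :=
    measurableSet_Ioo.prod measurableSet_Ioo
  have hmT : MeasurableSet polarCoord.target := by
    rw [hT]
    exact measurableSet_Ioi.prod measurableSet_Ioo
  have hpm : ∀ p : ℝ × ℝ, Complex.polarCoord.symm p = pm p := by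
    intro p
    rw [Complex.polarCoord_symm_apply, pm, Complex.exp_mul_I]
    push_cast
    rfl
  rw [setIntegral_eq_of_subset_of_forall_sdiff_eq_zero hmT hsub]
  · refine setIntegral_congr_fun hm fun p hp => ?_
    rw [hpm, indicator_of_mem, Complex.real_smul]
    have hp1 : 0 < p.1 := hp.1.1
    have hp2 : p.1 < R := hp.1.2
    rw [mem_ball_zero_iff, pm, norm_mul, Complex.norm_exp_ofReal_mul_I, mul_one,
      Complex.norm_real, Real.norm_of_nonneg hp1.le]
    exact hp2
  · intro p hp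
    rw [hpm, indicator_of_notMem, smul_zero]
    intro h
    apply hp.2
    have hp1 : p ∈ Ioi (0 : ℝ) ×ˢ Ioo (-Real.pi) Real.pi := hp.1
    have hp0 : 0 < p.1 := hp1.1
    rw [mem_ball_zero_iff, pm, norm_mul, Complex.norm_exp_ofReal_mul_I, mul_one,
      Complex.norm_real, Real.norm_of_nonneg hp0.le] at h
    exact ⟨⟨hp0, h⟩, hp1.2⟩

lemma green (F : ℂ → ℂ) (hF : ContDiff ℝ 1 F) (R : ℝ) (hR : 0 < R) :
    ∮ z in C(0, R), F z = 2 * Complex.I * ∫ t in ball (0 : ℂ) R, dzb F t := by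
  have hfs : ContDiff ℝ 1 (fun p => Complex.I * pm p * F (pm p)) :=
    (contDiff_const.mul pm_smooth).mul (hF.comp pm_smooth)
  have hgs : ContDiff ℝ 1 (fun p : ℝ × ℝ => - (Complex.exp (p.2 * Complex.I) * F (pm p))) :=
    (exp_smooth.mul (hF.comp pm_smooth)).neg
  have hpi := Real.pi_pos
  have hc : Continuous fun p : ℝ × ℝ => 2 * Complex.I * ((p.1 : ℂ) * dzb F (pm p)) :=
    continuous_const.mul ((Complex.continuous_ofReal.comp continuous_fst).mul
      ((dzb_cont hF).comp pm_smooth.continuous))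
  have hdiv := integral_divergence_prod_Icc_of_hasFDerivAt_of_le
    (fun p => Complex.I * pm p * F (pm p))
    (fun p : ℝ × ℝ => - (Complex.exp (p.2 * Complex.I) * F (pm p)))
    (fun p => fderiv ℝ (fun p => Complex.I * pm p * F (pm p)) p)
    (fun p => fderiv ℝ (fun p : ℝ × ℝ => - (Complex.exp (p.2 * Complex.I) * F (pm p))) p)
    (0, -Real.pi) (R, Real.pi) ⟨hR.le, by simp only; linarith⟩
    hfs.continuous.continuousOn hgs.continuous.continuousOn
    (fun p _ => (hfs.differentiable one_ne_zero p).hasFDerivAt)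
    (fun p _ => (hgs.differentiable one_ne_zero p).hasFDerivAt)
    (by
      simp only [green_key F hF]
      exact hc.continuousOn.integrableOn_compact isCompact_Icc)
  simp only [green_key F hF] at hdiv
  have hae : (Icc ((0 : ℝ), -Real.pi) (R, Real.pi) : Set (ℝ × ℝ)) =ᵐ[volume]
      (Ioo (0 : ℝ) R ×ˢ Ioo (-Real.pi) Real.pi : Set (ℝ × ℝ)) := by
    rw [← Icc_prod_Icc]
    exact Measure.set_prod_ae_eq Ioo_ae_eq_Icc.symm Ioo_ae_eq_Icc.symm
  rw [setIntegral_congr_set hae, integral_const_mul, polar_ball] at hdiv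
  have x1 : Complex.exp ((Real.pi : ℝ) * Complex.I) = -1 := Complex.exp_pi_mul_I
  have x2 : Complex.exp (((-Real.pi : ℝ) : ℂ) * Complex.I) = -1 := by
    rw [Complex.ofReal_neg, neg_mul, Complex.exp_neg, x1]
    norm_num
  have e1 : ∀ x : ℝ, pm (x, Real.pi) = pm (x, -Real.pi) := by
    intro x
    simp only [pm]
    rw [x1, x2]
  simp only [e1, x1, x2] at hdiv
  rw [hdiv]
  have e3 : ∀ y : ℝ, Complex.I * pm ((0 : ℝ), y) * F (pm ((0 : ℝ), y)) = 0 := by
    intro y
    simp [pm]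
  simp only [e3]
  rw [sub_self, zero_add, intervalIntegral.integral_zero, sub_zero]
  have e4 : ∀ y : ℝ, Complex.I * pm (R, y) * F (pm (R, y)) =
      deriv (circleMap 0 R) y • F (circleMap 0 R y) := by
    intro y
    have : pm (R, y) = circleMap 0 R y := by
      simp [pm, circleMap]
    rw [this, deriv_circleMap, smul_eq_mul]
    ring
  simp_rw [e4]
  rw [circleIntegral]
  have hper : Function.Periodic (fun y => deriv (circleMap 0 R) y • F (circleMap 0 R y))
      (2 * Real.pi) := by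
    intro y
    simp only [deriv_circleMap]
    rw [periodic_circleMap]
  have := hper.intervalIntegral_add_eq 0 (-Real.pi)
  rw [zero_add] at this
  rw [this]
  congr 1
  ring

/-- denominator of the mollified kernel -/
noncomputable def nk (z : ℂ) (ε : ℝ) (t : ℂ) : ℂ := (t - z) * conj (t - z) + (ε : ℂ) ^ 2

/-- mollified kernel -/
noncomputable def kk (z : ℂ) (ε : ℝ) (t : ℂ) : ℂ := conj (t - z) * (nk z ε t)⁻¹

lemma nk_eq (z : ℂ) (ε : ℝ) (t : ℂ) : nk z ε t = ((‖t - z‖ ^ 2 + ε ^ 2 : ℝ) : ℂ) := by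
  rw [nk, Complex.mul_conj, Complex.normSq_eq_norm_sq]
  push_cast
  ring

lemma nk_norm (z : ℂ) (ε : ℝ) (t : ℂ) : ‖nk z ε t‖ = ‖t - z‖ ^ 2 + ε ^ 2 := by
  rw [nk_eq, Complex.norm_real, Real.norm_of_nonneg (by positivity)]

lemma nk_ne (z : ℂ) {ε : ℝ} (hε : 0 < ε) (t : ℂ) : nk z ε t ≠ 0 := by
  rw [← norm_pos_iff, nk_norm]
  positivity

lemma conj_smooth (z : ℂ) : ContDiff ℝ 1 (fun t : ℂ => conj (t - z)) :=
  Complex.conjCLE.contDiff.comp (contDiff_id.sub contDiff_const)

lemma nk_smooth (z : ℂ) (ε : ℝ) : ContDiff ℝ 1 (nk z ε) :=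
  ((contDiff_id.sub contDiff_const).mul (conj_smooth z)).add contDiff_const

lemma kk_smooth (z : ℂ) {ε : ℝ} (hε : 0 < ε) : ContDiff ℝ 1 (kk z ε) :=
  (conj_smooth z).mul ((nk_smooth z ε).inv (nk_ne z hε))

lemma kk_dzb (z : ℂ) {ε : ℝ} (hε : 0 < ε) (t : ℂ) :
    dzb (kk z ε) t = (ε : ℂ) ^ 2 * ((nk z ε t)⁻¹) ^ 2 := by
  have hsub : DifferentiableAt ℝ (fun t : ℂ => t - z) t := by fun_prop
  have hc : DifferentiableAt ℝ (fun t : ℂ => conj (t - z)) t :=
    (conj_smooth z).differentiable one_ne_zero t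
  have hN : DifferentiableAt ℝ (nk z ε) t := (nk_smooth z ε).differentiable one_ne_zero t
  have hinvC : DifferentiableAt ℂ (fun x : ℂ => x⁻¹) (nk z ε t) :=
    differentiableAt_inv (nk_ne z hε t)
  have hinv : DifferentiableAt ℝ (fun x : ℂ => x⁻¹) (nk z ε t) := hinvC.restrictScalars ℝ
  have hNi : DifferentiableAt ℝ (fun t => (nk z ε t)⁻¹) t := hN.inv (nk_ne z hε t)
  have d1 : Pool.Agent.Helper68.QC.dz (fun t : ℂ => t - z) t = 1 := by
    rw [Pool.Agent.Helper68.QC.dz_sub differentiableAt_fun_id (differentiableAt_const z)]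
    simp
  have d2 : Pool.Agent.Helper68.QC.dzb (fun t : ℂ => t - z) t = 0 := by
    rw [Pool.Agent.Helper68.QC.dzb_sub differentiableAt_fun_id (differentiableAt_const z)]
    simp
  have d3 : Pool.Agent.Helper68.QC.dzb (fun t : ℂ => conj (t - z)) t = 1 := by
    rw [Pool.Agent.Helper68.QC.dzb_conj hsub, d1, map_one]
  have hm : DifferentiableAt ℝ (fun t : ℂ => (t - z) * conj (t - z)) t := hsub.mul hc
  have d4 : Pool.Agent.Helper68.QC.dzb (nk z ε) t = t - z := by
    have : Pool.Agent.Helper68.QC.dzb (fun t => (t - z) * conj (t - z) + (ε : ℂ) ^ 2) t =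
        t - z := by
      rw [Pool.Agent.Helper68.QC.dzb_add hm (differentiableAt_const _),
        Pool.Agent.Helper68.QC.dzb_mul hsub hc, d2, d3]
      simp
    exact this
  have d5 : Pool.Agent.Helper68.QC.dzb (fun t => (nk z ε t)⁻¹) t =
      - ((nk z ε t)⁻¹) ^ 2 * (t - z) := by
    rw [Pool.Agent.Helper68.QC.dzb_comp (g := fun x => x⁻¹) hinv hN,
      Pool.Agent.Helper68.QC.dzb_holo hinvC, Pool.Agent.Helper68.QC.dz_holo hinvC, d4]
    simp
  have d6 : Pool.Agent.Helper68.QC.dzb (fun t => conj (t - z) * (nk z ε t)⁻¹) t =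
      (ε : ℂ) ^ 2 * ((nk z ε t)⁻¹) ^ 2 := by
    rw [Pool.Agent.Helper68.QC.dzb_mul hc hNi, d3, d5]
    have h0 := nk_ne z hε t
    have h1 : nk z ε t = (t - z) * conj (t - z) + (ε : ℂ) ^ 2 := rfl
    field_simp
    rw [h1]
    ring
  exact d6

lemma kk_norm_le (z : ℂ) (ε : ℝ) (t : ℂ) : ‖kk z ε t‖ ≤ ‖t - z‖⁻¹ := by
  rw [kk, norm_mul, norm_inv, nk_norm, RCLike.norm_conj]
  rcases eq_or_ne (t - z) 0 with h | h
  · rw [h]; simp
  · have hx : 0 < ‖t - z‖ := norm_pos_iff.2 h
    rw [← div_eq_mul_inv, div_le_iff₀ (by positivity)]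
    rw [mul_add, inv_mul_eq_div, pow_two, mul_div_assoc, div_self hx.ne', mul_one]
    have : 0 ≤ ‖t - z‖⁻¹ * ε ^ 2 := by positivity
    linarith

lemma kk_dzb_norm_le (z : ℂ) {ε : ℝ} (hε : 0 < ε) (t : ℂ) :
    ‖t - z‖ * ‖dzb (kk z ε) t‖ ≤ ‖t - z‖⁻¹ := by
  rw [kk_dzb z hε, norm_mul, norm_pow, norm_pow, norm_inv, nk_norm, Complex.norm_real,
    Real.norm_of_nonneg hε.le]
  rcases eq_or_ne (t - z) 0 with h | h
  · rw [h]; simp
  · have hx : 0 < ‖t - z‖ := norm_pos_iff.2 h
    set x := ‖t - z‖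
    rw [inv_pow, ← div_eq_mul_inv, ← mul_div_assoc, div_le_iff₀ (by positivity),
      inv_mul_eq_div, le_div_iff₀ hx]
    nlinarith [sq_nonneg (x ^ 2 - ε ^ 2), sq_nonneg (x * ε), sq_nonneg (x ^ 2),
      sq_nonneg (ε ^ 2)]

lemma inv_int (z : ℂ) (R : ℝ) : IntegrableOn (fun t : ℂ => ‖t - z‖⁻¹) (ball 0 R) := by
  have h1 : LocallyIntegrable (fun t : ℂ => ‖t‖⁻¹) volume := by
    refine locallyIntegrable_of_norm_le_rpow (C := 1) (α := 1) ?_ ?_ ?_ ?_
    · rw [Complex.finrank_real_complex]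
      norm_num
    · rw [Complex.finrank_real_complex]
      norm_num
    · refine ae_of_all _ fun x => ?_
      rw [Real.rpow_neg (norm_nonneg _), Real.rpow_one]
      simp
    · exact (measurable_norm.inv).aestronglyMeasurable
  have h2 : IntegrableOn (fun t : ℂ => ‖t‖⁻¹) (ball (-z) R) :=
    (h1.integrableOn_isCompact (isCompact_closedBall (-z) R)).mono_set ball_subset_closedBall
  have h3 := (measurePreserving_sub_right (volume : Measure ℂ) z).integrableOn_comp_preimage
    (measurableEmbedding_subRight z) (f := fun t : ℂ => ‖t‖⁻¹) (s := ball (-z) R)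
  have h4 := h3.2 h2
  have h5 : (fun x : ℂ => x - z) ⁻¹' ball (-z) R = ball 0 R := by
    ext x
    simp [dist_eq_norm]
  rw [h5] at h4
  exact h4

lemma kk_tendsto (z t : ℂ) (h : t ≠ z) {e : ℕ → ℝ} (he : Tendsto e atTop (𝓝 0))
    (he0 : ∀ n, 0 < e n) :
    Tendsto (fun n => kk z (e n) t) atTop (𝓝 (t - z)⁻¹) ∧
    Tendsto (fun n => dzb (kk z (e n)) t) atTop (𝓝 0) := by
  have h0 : t - z ≠ 0 := sub_ne_zero.2 h
  have hc0 : conj (t - z) ≠ 0 := (map_ne_zero _).2 h0
  have heC : Tendsto (fun n => ((e n : ℝ) : ℂ) ^ 2) atTop (𝓝 0) := by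
    have := ((Complex.continuous_ofReal.tendsto 0).comp he).pow 2
    simpa using this
  have hN : Tendsto (fun n => nk z (e n) t) atTop (𝓝 ((t - z) * conj (t - z))) := by
    have := (tendsto_const_nhds (x := (t - z) * conj (t - z))).add heC
    simpa [nk] using this
  have hNi : Tendsto (fun n => (nk z (e n) t)⁻¹) atTop (𝓝 ((t - z) * conj (t - z))⁻¹) :=
    hN.inv₀ (mul_ne_zero h0 hc0)
  constructor
  · have := (tendsto_const_nhds (x := conj (t - z))).mul hNi
    have e1 : conj (t - z) * ((t - z) * conj (t - z))⁻¹ = (t - z)⁻¹ := by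
      field_simp
    rw [e1] at this
    exact this
  · have := heC.mul (hNi.pow 2)
    rw [zero_mul] at this
    refine this.congr fun n => ?_
    rw [kk_dzb z (he0 n)]

lemma pomp (F : ℂ → ℂ) (hF : ContDiff ℝ 1 F) (R : ℝ) (hR : 0 < R) (z : ℂ) (hz : ‖z‖ ≠ R)
    (L : ℝ) (hL : ∀ t ∈ ball (0 : ℂ) R, ‖F t‖ ≤ L * ‖t - z‖) :
    ∮ t in C(0, R), F t * (t - z)⁻¹ =
      2 * Complex.I * ∫ t in ball (0 : ℂ) R, dzb F t * (t - z)⁻¹ := by
  set e : ℕ → ℝ := fun n => 1 / ((n : ℝ) + 1) with he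
  have he0 : ∀ n, 0 < e n := fun n => by rw [he]; positivity
  have het : Tendsto e atTop (𝓝 0) := tendsto_one_div_add_atTop_nhds_zero_nat
  have hmain : ∀ n, ∮ t in C(0, R), F t * kk z (e n) t = 2 * Complex.I *
      ∫ t in ball (0 : ℂ) R, (dzb F t * kk z (e n) t + F t * dzb (kk z (e n)) t) := by
    intro n
    rw [green _ (hF.mul (kk_smooth z (he0 n))) R hR]
    congr 1
    refine integral_congr_ae (ae_of_all _ fun t => ?_)
    exact Pool.Agent.Helper68.QC.dzb_mul (hF.differentiable one_ne_zero t)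
      ((kk_smooth z (he0 n)).differentiable one_ne_zero t)
  -- interior
  obtain ⟨C, hC⟩ := (isCompact_closedBall (0 : ℂ) R).exists_bound_of_continuousOn
    (dzb_cont hF).continuousOn
  have hae : ∀ᵐ t ∂(volume.restrict (ball (0 : ℂ) R)), t ≠ z := by
    refine ae_restrict_of_ae ?_
    rw [ae_iff]
    simp
  have hin : Tendsto (fun n => ∫ t in ball (0 : ℂ) R,
      (dzb F t * kk z (e n) t + F t * dzb (kk z (e n)) t)) atTop
      (𝓝 (∫ t in ball (0 : ℂ) R, dzb F t * (t - z)⁻¹)) := by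
    refine tendsto_integral_of_dominated_convergence (fun t => (C + |L|) * ‖t - z‖⁻¹) ?_ ?_ ?_ ?_
    · intro n
      refine Continuous.aestronglyMeasurable ?_
      exact ((dzb_cont hF).mul (kk_smooth z (he0 n)).continuous).add
        (hF.continuous.mul (dzb_cont (kk_smooth z (he0 n))))
    · exact (inv_int z R).const_mul _
    · intro n
      filter_upwards [ae_restrict_mem measurableSet_ball] with t ht
      have h1 := hC t (ball_subset_closedBall ht)
      have h2 := kk_norm_le z (e n) t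
      have h3 := kk_dzb_norm_le z (he0 n) t
      have h4 := hL t ht
      have h5 : ‖dzb F t * kk z (e n) t‖ ≤ C * ‖t - z‖⁻¹ := by
        rw [norm_mul]
        exact mul_le_mul h1 h2 (norm_nonneg _) ((norm_nonneg _).trans h1)
      have h6 : ‖F t * dzb (kk z (e n)) t‖ ≤ |L| * ‖t - z‖⁻¹ := by
        rw [norm_mul]
        calc ‖F t‖ * ‖dzb (kk z (e n)) t‖ ≤ (|L| * ‖t - z‖) * ‖dzb (kk z (e n)) t‖ := by
              refine mul_le_mul_of_nonneg_right (h4.trans ?_) (norm_nonneg _)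
              exact mul_le_mul_of_nonneg_right (le_abs_self L) (norm_nonneg _)
          _ = |L| * (‖t - z‖ * ‖dzb (kk z (e n)) t‖) := by ring
          _ ≤ _ := mul_le_mul_of_nonneg_left h3 (abs_nonneg L)
      refine (norm_add_le _ _).trans ?_
      rw [add_mul]
      exact add_le_add h5 h6
    · filter_upwards [hae] with t ht
      obtain ⟨t1, t2⟩ := kk_tendsto z t ht het he0
      have := (t1.const_mul (dzb F t)).add (t2.const_mul (F t))
      rw [mul_zero, add_zero] at this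
      exact this
  -- circle
  have hzc : 0 < |R - ‖z‖| := abs_pos.2 (sub_ne_zero.2 (Ne.symm hz))
  have hsep : ∀ θ : ℝ, |R - ‖z‖| ≤ ‖circleMap 0 R θ - z‖ := by
    intro θ
    have h1 := abs_norm_sub_norm_le (circleMap 0 R θ) z
    have h2 : ‖circleMap 0 R θ‖ = R := by
      rw [norm_circleMap_zero, abs_of_pos hR]
    rwa [h2] at h1
  obtain ⟨M, hM⟩ := (isCompact_closedBall (0 : ℂ) R).exists_bound_of_continuousOn
    hF.continuous.continuousOn
  have hout : Tendsto (fun n => ∮ t in C(0, R), F t * kk z (e n) t) atTop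
      (𝓝 (∮ t in C(0, R), F t * (t - z)⁻¹)) := by
    unfold circleIntegral
    refine intervalIntegral.tendsto_integral_filter_of_dominated_convergence
      (fun _ => R * (M * |R - ‖z‖|⁻¹)) ?_ ?_ ?_ ?_
    · refine Eventually.of_forall fun n => ?_
      refine Continuous.aestronglyMeasurable ?_
      simp only [deriv_circleMap, smul_eq_mul]
      exact ((continuous_circleMap 0 R).mul continuous_const).mul
        ((hF.continuous.comp (continuous_circleMap 0 R)).mul
          ((kk_smooth z (he0 n)).continuous.comp (continuous_circleMap 0 R)))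
    · refine Eventually.of_forall fun n => ae_of_all _ fun θ _ => ?_
      have h1 : ‖circleMap 0 R θ‖ = R := by
        rw [norm_circleMap_zero, abs_of_pos hR]
      have h2 : ‖F (circleMap 0 R θ)‖ ≤ M := hM _ (by rw [mem_closedBall_zero_iff, h1])
      have h3 : ‖kk z (e n) (circleMap 0 R θ)‖ ≤ |R - ‖z‖|⁻¹ :=
        (kk_norm_le _ _ _).trans (inv_anti₀ hzc (hsep θ))
      rw [deriv_circleMap, norm_smul, norm_mul, norm_mul, h1, Complex.norm_I, mul_one]
      refine mul_le_mul_of_nonneg_left ?_ hR.le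
      exact mul_le_mul h2 h3 (norm_nonneg _) ((norm_nonneg _).trans h2)
    · exact intervalIntegrable_const
    · refine ae_of_all _ fun θ _ => ?_
      have h1 : circleMap 0 R θ ≠ z := by
        intro h
        have := hsep θ
        rw [h, sub_self, norm_zero] at this
        linarith
      exact (((kk_tendsto z _ h1 het he0).1.const_mul _).const_smul _)
  have hin2 := hin.const_mul (2 * Complex.I)
  refine tendsto_nhds_unique hout ?_
  refine hin2.congr fun n => ?_
  rw [hmain]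

/-- smooth extension of a `C¹` function on the disc -/
lemma exists_ext (V : ℂ → ℂ) (hV : ContDiffOn ℝ 1 V D) (R : ℝ) (hR : 0 < R) (hR1 : R < 1) :
    ∃ F : ℂ → ℂ, ContDiff ℝ 1 F ∧ ∀ t ∈ closedBall (0 : ℂ) R, F =ᶠ[𝓝 t] V := by
  let b : ContDiffBump (0 : ℂ) := ⟨R + (1 - R) / 3, R + 2 * (1 - R) / 3, by linarith, by linarith⟩
  have hb : ContDiff ℝ 1 (fun z => ((b z : ℝ) : ℂ)) :=
    Complex.ofRealCLM.contDiff.comp b.contDiff
  refine ⟨fun t => V t * ((b t : ℝ) : ℂ), ?_, ?_⟩
  · rw [contDiff_iff_contDiffAt]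
    intro t
    by_cases ht : t ∈ D
    · exact (hV.contDiffAt (isOpen_ball.mem_nhds ht)).mul hb.contDiffAt
    · have h1 : t ∉ tsupport b := by
        rw [b.tsupport_eq]
        intro h
        apply ht
        have h2 : ‖t‖ ≤ R + 2 * (1 - R) / 3 := by simpa using h
        rw [mem_ball_zero_iff]
        linarith
      have h0 : (b : ℂ → ℝ) =ᶠ[𝓝 t] 0 := notMem_tsupport_iff_eventuallyEq.1 h1
      refine ContDiffAt.congr_of_eventuallyEq (f := fun _ => (0 : ℂ)) contDiffAt_const ?_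
      filter_upwards [h0] with x hx
      simp [hx]
  · intro t ht
    have h1 : t ∈ ball (0 : ℂ) (R + (1 - R) / 3) := by
      rw [mem_closedBall_zero_iff] at ht
      rw [mem_ball_zero_iff]
      linarith
    filter_upwards [isOpen_ball.mem_nhds h1] with x hx
    have : b x = 1 := b.one_of_mem_closedBall (ball_subset_closedBall hx)
    simp [this]

lemma dzb_congr {F V : ℂ → ℂ} {t : ℂ} (h : F =ᶠ[𝓝 t] V) : dzb F t = dzb V t := by
  unfold dzb
  rw [h.fderiv_eq]

lemma disc_out (V : ℂ → ℂ) (hV : ContDiffOn ℝ 1 V D) (R : ℝ) (hR : 0 < R) (hR1 : R < 1)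
    (z : ℂ) (hz : R < ‖z‖) :
    ∮ t in C(0, R), V t * (t - z)⁻¹ =
      2 * Complex.I * ∫ t in ball (0 : ℂ) R, dzb V t * (t - z)⁻¹ := by
  obtain ⟨F, hF, hFV⟩ := exists_ext V hV R hR hR1
  obtain ⟨M, hM⟩ := (isCompact_closedBall (0 : ℂ) R).exists_bound_of_continuousOn
    hF.continuous.continuousOn
  have hd : 0 < ‖z‖ - R := by linarith
  have h := pomp F hF R hR z hz.ne' (M / (‖z‖ - R)) (fun t ht => by
    have h1 := hM t (ball_subset_closedBall ht)
    have h2 : ‖z‖ - R ≤ ‖t - z‖ := by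
      have h3 := norm_sub_norm_le z t
      rw [mem_ball_zero_iff] at ht
      rw [norm_sub_rev] at h3
      linarith
    refine h1.trans ?_
    rw [div_mul_eq_mul_div, le_div_iff₀ hd]
    exact mul_le_mul_of_nonneg_left h2 ((norm_nonneg _).trans h1))
  have e1 : ∮ t in C(0, R), V t * (t - z)⁻¹ = ∮ t in C(0, R), F t * (t - z)⁻¹ := by
    refine circleIntegral.integral_congr hR.le fun t ht => ?_
    rw [(hFV t (sphere_subset_closedBall ht)).eq_of_nhds]
  have e2 : ∫ t in ball (0 : ℂ) R, dzb V t * (t - z)⁻¹ =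
      ∫ t in ball (0 : ℂ) R, dzb F t * (t - z)⁻¹ := by
    refine setIntegral_congr_fun measurableSet_ball fun t ht => ?_
    rw [dzb_congr (hFV t (ball_subset_closedBall ht))]
  rw [e1, e2, h]

lemma disc_in (V : ℂ → ℂ) (hV : ContDiffOn ℝ 1 V D) (R : ℝ) (hR : 0 < R) (hR1 : R < 1)
    (z : ℂ) (hz : ‖z‖ < R) :
    ∮ t in C(0, R), V t * (t - z)⁻¹ =
      2 * Complex.I * (∫ t in ball (0 : ℂ) R, dzb V t * (t - z)⁻¹) +
        2 * Real.pi * Complex.I * V z := by
  obtain ⟨F, hF, hFV⟩ := exists_ext V hV R hR hR1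
  have hG : ContDiff ℝ 1 (fun t => F t - F z) := hF.sub contDiff_const
  obtain ⟨M, hM⟩ := (isCompact_closedBall (0 : ℂ) R).exists_bound_of_continuousOn
    (hF.continuous_fderiv one_ne_zero).continuousOn
  have hzb : z ∈ ball (0 : ℂ) R := by rwa [mem_ball_zero_iff]
  have h := pomp (fun t => F t - F z) hG R hR z hz.ne M (fun t ht => by
    exact Convex.norm_image_sub_le_of_norm_fderiv_le (𝕜 := ℝ)
      (fun x _ => hF.differentiable one_ne_zero x)
      (fun x hx => hM x (ball_subset_closedBall hx)) (convex_ball (0 : ℂ) R) hzb ht)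
  have hne : ∀ t ∈ sphere (0 : ℂ) R, t - z ≠ 0 := by
    intro t ht h0
    rw [sub_eq_zero] at h0
    rw [mem_sphere_zero_iff_norm, h0] at ht
    linarith
  have hci : ContinuousOn (fun t : ℂ => (t - z)⁻¹) (sphere 0 R) :=
    (continuousOn_id.sub continuousOn_const).inv₀ hne
  have e1 : ∮ t in C(0, R), (F t - F z) * (t - z)⁻¹ =
      (∮ t in C(0, R), V t * (t - z)⁻¹) - 2 * Real.pi * Complex.I * V z := by
    have e3 : ∮ t in C(0, R), (F t - F z) * (t - z)⁻¹ =
        ∮ t in C(0, R), (F t * (t - z)⁻¹ - F z * (t - z)⁻¹) := by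
      refine circleIntegral.integral_congr hR.le fun t ht => ?_
      ring
    have c1 : CircleIntegrable (fun t => F t * (t - z)⁻¹) 0 R :=
      (hF.continuous.continuousOn.mul hci).circleIntegrable hR.le
    have c2 : CircleIntegrable (fun t => F z * (t - z)⁻¹) 0 R :=
      (continuousOn_const.mul hci).circleIntegrable hR.le
    rw [e3, circleIntegral.integral_sub c1 c2]
    congr 1
    · refine circleIntegral.integral_congr hR.le fun t ht => ?_
      rw [(hFV t (sphere_subset_closedBall ht)).eq_of_nhds]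
    · rw [circleIntegral.integral_const_mul, circleIntegral.integral_sub_inv_of_mem_ball hzb,
        (hFV z (ball_subset_closedBall hzb)).eq_of_nhds]
      ring
  have e2 : ∫ t in ball (0 : ℂ) R, dzb V t * (t - z)⁻¹ =
      ∫ t in ball (0 : ℂ) R, dzb (fun t => F t - F z) t * (t - z)⁻¹ := by
    refine setIntegral_congr_fun measurableSet_ball fun t ht => ?_
    rw [← dzb_congr (hFV t (ball_subset_closedBall ht))]
    congr 1
    unfold dzb
    rw [fderiv_sub_const]
  rw [e2, ← h, e1]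
  ring

/-- radii tending to one -/
noncomputable def rr (n : ℕ) : ℝ := 1 - 1 / ((n : ℝ) + 2)

lemma rr_pos (n : ℕ) : 0 < rr n := by
  unfold rr
  have : (1 : ℝ) / ((n : ℝ) + 2) ≤ 1 / 2 := by
    apply one_div_le_one_div_of_le two_pos
    have : (0 : ℝ) ≤ n := Nat.cast_nonneg n
    linarith
  linarith

lemma rr_lt (n : ℕ) : rr n < 1 := by
  unfold rr
  have : (0 : ℝ) < 1 / ((n : ℝ) + 2) := by positivity
  linarith

lemma rr_mono : Monotone rr := by
  intro m n h
  unfold rr
  have h1 : (m : ℝ) ≤ n := Nat.cast_le.2 h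
  have : (1 : ℝ) / ((n : ℝ) + 2) ≤ 1 / ((m : ℝ) + 2) := by
    apply one_div_le_one_div_of_le (by positivity)
    linarith
  linarith

lemma rr_tendsto : Tendsto rr atTop (𝓝 1) := by
  have h1 : Tendsto (fun n : ℕ => ((n : ℝ) + 2)) atTop atTop :=
    tendsto_atTop_add_const_right _ _ tendsto_natCast_atTop_atTop
  have h2 := h1.inv_tendsto_atTop
  have h3 := (tendsto_const_nhds (x := (1 : ℝ))).sub h2
  rw [sub_zero] at h3
  refine h3.congr fun n => ?_
  simp [rr]

lemma area_lim (f : ℂ → ℂ) (hf : IntegrableOn f D) :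
    Tendsto (fun n => ∫ t in ball (0 : ℂ) (rr n), f t) atTop (𝓝 (∫ t in D, f t)) := by
  have hU : (⋃ n, ball (0 : ℂ) (rr n)) = D := by
    ext x
    rw [mem_iUnion]
    constructor
    · rintro ⟨n, hn⟩
      exact ball_subset_ball (rr_lt n).le hn
    · intro hx
      rw [mem_ball_zero_iff] at hx
      obtain ⟨n, hn⟩ := (rr_tendsto.eventually (lt_mem_nhds hx)).exists
      exact ⟨n, by rwa [mem_ball_zero_iff]⟩
  have := tendsto_setIntegral_of_monotone (f := f) (μ := volume)
    (s := fun n => ball (0 : ℂ) (rr n)) (fun n => measurableSet_ball)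
    (fun m n h => ball_subset_ball (rr_mono h)) (by rw [hU]; exact hf)
  rwa [hU] at this

lemma circle_lim (V : ℂ → ℂ) (hV : Continuous V) (z : ℂ) (hz : ‖z‖ ≠ 1) :
    Tendsto (fun n => ∮ t in C(0, rr n), V t * (t - z)⁻¹) atTop
      (𝓝 (∮ t in C(0, 1), V t * (t - z)⁻¹)) := by
  obtain ⟨M, hM⟩ := (isCompact_closedBall (0 : ℂ) 1).exists_bound_of_continuousOn
    hV.continuousOn
  have hd : 0 < |1 - ‖z‖| := abs_pos.2 (sub_ne_zero.2 (Ne.symm hz))
  have hev : ∀ᶠ n in atTop, |1 - ‖z‖| / 2 ≤ |rr n - ‖z‖| := by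
    have h1 : Tendsto (fun n => |rr n - ‖z‖|) atTop (𝓝 |1 - ‖z‖|) :=
      (rr_tendsto.sub_const _).abs
    exact (h1.eventually (lt_mem_nhds (half_lt_self hd))).mono fun n hn => le_of_lt hn
  have hnc : ∀ (r : ℝ) (θ : ℝ), 0 < r → ‖circleMap 0 r θ‖ = r := by
    intro r θ hr
    rw [norm_circleMap_zero, abs_of_pos hr]
  have hsep : ∀ (r : ℝ) (θ : ℝ), 0 < r → |r - ‖z‖| ≤ ‖circleMap 0 r θ - z‖ := by
    intro r θ hr
    have h1 := abs_norm_sub_norm_le (circleMap 0 r θ) z
    rwa [hnc r θ hr] at h1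
  unfold circleIntegral
  refine intervalIntegral.tendsto_integral_filter_of_dominated_convergence
    (fun _ => 1 * (M * (|1 - ‖z‖| / 2)⁻¹)) ?_ ?_ ?_ ?_
  · refine Eventually.of_forall fun n => ?_
    refine Measurable.aestronglyMeasurable ?_
    simp only [deriv_circleMap, smul_eq_mul]
    exact ((measurable_circleMap 0 _).mul measurable_const).mul
      ((hV.measurable.comp (measurable_circleMap 0 _)).mul
        ((measurable_circleMap 0 _).sub_const z).inv)
  · filter_upwards [hev] with n hn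
    refine ae_of_all _ fun θ _ => ?_
    have h2 : ‖V (circleMap 0 (rr n) θ)‖ ≤ M :=
      hM _ (by rw [mem_closedBall_zero_iff, hnc _ _ (rr_pos n)]; exact (rr_lt n).le)
    have h3 : ‖(circleMap 0 (rr n) θ - z)⁻¹‖ ≤ (|1 - ‖z‖| / 2)⁻¹ := by
      rw [norm_inv]
      exact inv_anti₀ (half_pos hd) (hn.trans (hsep _ _ (rr_pos n)))
    rw [deriv_circleMap, norm_smul, norm_mul, norm_mul, hnc _ _ (rr_pos n), Complex.norm_I,
      mul_one]
    refine mul_le_mul (rr_lt n).le ?_ (by positivity) zero_le_one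
    exact mul_le_mul h2 h3 (norm_nonneg _) ((norm_nonneg _).trans h2)
  · exact intervalIntegrable_const
  · refine ae_of_all _ fun θ _ => ?_
    have h1 : circleMap 0 1 θ - z ≠ 0 := by
      intro h
      have := hsep 1 θ one_pos
      rw [h, norm_zero] at this
      linarith
    have h2 : Tendsto (fun n => circleMap 0 (rr n) θ) atTop (𝓝 (circleMap 0 1 θ)) := by
      unfold circleMap
      exact (((Complex.continuous_ofReal.tendsto 1).comp rr_tendsto).mul_const _).const_add _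
    simp only [deriv_circleMap]
    exact (h2.mul_const _).smul (((hV.tendsto _).comp h2).mul ((h2.sub_const z).inv₀ h1))

lemma inner_out (V : ℂ → ℂ) (hVc : Continuous V) (hV : ContDiffOn ℝ 1 V D) (z : ℂ)
    (hz : 1 < ‖z‖) (hint : IntegrableOn (fun t => dzb V t * (t - z)⁻¹) D) :
    ∮ t in C(0, 1), V t * (t - z)⁻¹ = 2 * Complex.I * ∫ t in D, dzb V t * (t - z)⁻¹ := by
  refine tendsto_nhds_unique (circle_lim V hVc z hz.ne') ?_
  refine ((area_lim _ hint).const_mul (2 * Complex.I)).congr fun n => ?_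
  rw [disc_out V hV (rr n) (rr_pos n) (rr_lt n) z ((rr_lt n).trans hz)]

lemma inner_in (V : ℂ → ℂ) (hVc : Continuous V) (hV : ContDiffOn ℝ 1 V D) (z : ℂ)
    (hz : ‖z‖ < 1) (hint : IntegrableOn (fun t => dzb V t * (t - z)⁻¹) D) :
    ∮ t in C(0, 1), V t * (t - z)⁻¹ = 2 * Complex.I * (∫ t in D, dzb V t * (t - z)⁻¹) +
      2 * Real.pi * Complex.I * V z := by
  refine tendsto_nhds_unique (circle_lim V hVc z hz.ne) ?_
  refine (((area_lim _ hint).const_mul (2 * Complex.I)).add_const _).congr' ?_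
  filter_upwards [rr_tendsto.eventually (lt_mem_nhds hz)] with n hn
  rw [disc_in V hV (rr n) (rr_pos n) (rr_lt n) z hn]

/-- the Cauchy integrals over large circles are small -/
lemma big_circle (V : ℂ → ℂ) (hV0 : Tendsto V (Bornology.cobounded ℂ) (𝓝 0)) (z : ℂ) (ε : ℝ)
    (hε : 0 < ε) : ∃ R : ℝ, 1 < R ∧ ‖z‖ < R ∧ ‖∮ t in C(0, R), V t * (t - z)⁻¹‖ ≤ ε := by
  have hpi := Real.pi_pos
  set δ : ℝ := ε / (4 * Real.pi) with hδ
  have hδ0 : 0 < δ := by rw [hδ]; positivity
  have h1 : ∀ᶠ t in Bornology.cobounded ℂ, ‖V t‖ < δ := by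
    have := hV0.norm
    rw [norm_zero] at this
    exact this.eventually (gt_mem_nhds hδ0)
  rw [Filter.hasBasis_cobounded_norm.eventually_iff] at h1
  obtain ⟨r, -, hr⟩ := h1
  set R : ℝ := max r (2 * ‖z‖ + 2) with hRd
  have hR1 : 2 * ‖z‖ + 2 ≤ R := le_max_right _ _
  have hRr : r ≤ R := le_max_left _ _
  have hz0 := norm_nonneg z
  refine ⟨R, by linarith, by linarith, ?_⟩
  have h2 : ∀ t ∈ sphere (0 : ℂ) R, ‖V t * (t - z)⁻¹‖ ≤ δ * (R / 2)⁻¹ := by
    intro t ht
    rw [mem_sphere_zero_iff_norm] at ht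
    have h3 : ‖V t‖ ≤ δ := (hr (show r ≤ ‖t‖ by rw [ht]; exact hRr)).le
    have h4 : R / 2 ≤ ‖t - z‖ := by
      have := norm_sub_norm_le t z
      rw [ht] at this
      linarith
    rw [norm_mul, norm_inv]
    exact mul_le_mul h3 (inv_anti₀ (by linarith) h4) (by positivity) hδ0.le
  have h5 := circleIntegral.norm_integral_le_of_norm_le_const (by linarith : (0 : ℝ) ≤ R) h2
  refine h5.trans (le_of_eq ?_)
  rw [hδ]
  have : R ≠ 0 := by linarith
  field_simp
  ring

lemma outer_in (V : ℂ → ℂ) (hVc : Continuous V) (hVh : DifferentiableOn ℂ V {z : ℂ | 1 < ‖z‖})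
    (hV0 : Tendsto V (Bornology.cobounded ℂ) (𝓝 0)) (z : ℂ) (hz : ‖z‖ < 1) :
    ∮ t in C(0, 1), V t * (t - z)⁻¹ = 0 := by
  rw [← norm_eq_zero]
  refine le_antisymm (le_of_forall_pos_le_add fun ε hε => ?_) (norm_nonneg _)
  obtain ⟨R, hR1, -, hR⟩ := big_circle V hV0 z ε hε
  have hO : IsOpen {z : ℂ | 1 < ‖z‖} := isOpen_lt continuous_const continuous_norm
  have h := Complex.circleIntegral_eq_of_differentiable_on_annulus_off_countable (c := 0)
    one_pos hR1.le (f := fun t => V t * (t - z)⁻¹) countable_empty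
    (by
      refine hVc.continuousOn.mul ((continuousOn_id.sub continuousOn_const).inv₀ ?_)
      rintro t ht h0
      have h0' : t = z := sub_eq_zero.1 h0
      apply ht.2
      rw [h0']
      simpa using hz)
    (by
      rintro t ⟨⟨ht1, ht2⟩, -⟩
      have h3 : 1 < ‖t‖ := by
        rw [mem_closedBall_zero_iff] at ht2
        linarith
      have h4 : t - z ≠ 0 := by
        intro h0
        rw [sub_eq_zero] at h0
        rw [h0] at h3
        linarith
      exact (hVh.differentiableAt (hO.mem_nhds h3)).mul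
        ((differentiableAt_id.sub_const z).inv h4))
  rw [← h, zero_add]
  exact hR

lemma outer_out (V : ℂ → ℂ) (hVc : Continuous V) (hVh : DifferentiableOn ℂ V {z : ℂ | 1 < ‖z‖})
    (hV0 : Tendsto V (Bornology.cobounded ℂ) (𝓝 0)) (z : ℂ) (hz : 1 < ‖z‖) :
    ∮ t in C(0, 1), V t * (t - z)⁻¹ = - (2 * Real.pi * Complex.I * V z) := by
  rw [← sub_eq_zero, ← norm_eq_zero]
  refine le_antisymm (le_of_forall_pos_le_add fun ε hε => ?_) (norm_nonneg _)
  obtain ⟨R, hR1, hRz, hR⟩ := big_circle V hV0 z ε hε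
  have hO : IsOpen {z : ℂ | 1 < ‖z‖} := isOpen_lt continuous_const continuous_norm
  have hzO : DifferentiableAt ℂ V z := hVh.differentiableAt (hO.mem_nhds hz)
  have hR0 : (0 : ℝ) ≤ R := by linarith
  have hne : ∀ r : ℝ, r ≠ ‖z‖ → ∀ t ∈ sphere (0 : ℂ) r, t - z ≠ 0 := by
    intro r hr t ht h0
    rw [sub_eq_zero] at h0
    rw [mem_sphere_zero_iff_norm, h0] at ht
    exact hr ht.symm
  have h := Complex.circleIntegral_eq_of_differentiable_on_annulus_off_countable (c := 0)
    one_pos hR1.le (f := dslope V z) (countable_singleton z)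
    (by
      intro t _
      refine ContinuousAt.continuousWithinAt ?_
      rcases eq_or_ne t z with rfl | htz
      · exact continuousAt_dslope_same.2 hzO
      · exact (continuousAt_dslope_of_ne htz).2 hVc.continuousAt)
    (by
      rintro t ⟨⟨ht1, ht2⟩, ht3⟩
      have h3 : 1 < ‖t‖ := by
        rw [mem_closedBall_zero_iff] at ht2
        linarith
      exact (differentiableAt_dslope_of_ne ht3).2 (hVh.differentiableAt (hO.mem_nhds h3)))
  have hsplit : ∀ r : ℝ, 0 ≤ r → r ≠ ‖z‖ → ∮ t in C(0, r), dslope V z t =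
      (∮ t in C(0, r), V t * (t - z)⁻¹) - V z * ∮ t in C(0, r), (t - z)⁻¹ := by
    intro r hr hrz
    have hci : ContinuousOn (fun t : ℂ => (t - z)⁻¹) (sphere 0 r) :=
      (continuousOn_id.sub continuousOn_const).inv₀ (hne r hrz)
    have c1 : CircleIntegrable (fun t => V t * (t - z)⁻¹) 0 r :=
      (hVc.continuousOn.mul hci).circleIntegrable hr
    have c2 : CircleIntegrable (fun t => V z * (t - z)⁻¹) 0 r :=
      (continuousOn_const.mul hci).circleIntegrable hr
    rw [← circleIntegral.integral_const_mul, ← circleIntegral.integral_sub c1 c2]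
    refine circleIntegral.integral_congr hr fun t ht => ?_
    have htz : t ≠ z := fun h0 => hne r hrz t ht (sub_eq_zero.2 h0)
    rw [dslope_of_ne _ htz, slope_def_field]
    field_simp
  rw [hsplit R hR0 (by linarith), hsplit 1 zero_le_one hz.ne,
    circleIntegral.integral_sub_inv_of_mem_ball (by rwa [mem_ball_zero_iff])] at h
  have h1 : ∮ t in C(0, 1), (t - z)⁻¹ = 0 := by
    refine DiffContOnCl.circleIntegral_eq_zero zero_le_one ?_
    refine DifferentiableOn.diffContOnCl ?_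
    rw [closure_ball (0 : ℂ) one_ne_zero]
    intro t ht
    refine ((differentiableAt_id.sub_const z).inv ?_).differentiableWithinAt
    intro h0
    have h0' : t = z := sub_eq_zero.1 h0
    rw [mem_closedBall_zero_iff, h0'] at ht
    linarith
  rw [h1, mul_zero, sub_zero] at h
  rw [← h, zero_add]
  refine le_trans (le_of_eq ?_) hR
  congr 1
  ring

lemma kernel_int (a : ℂ → ℂ) (ha : ContinuousOn a D) (h2 : IntegrableOn (fun z => ‖a z‖ ^ 2) D)
    (z : ℂ) (hz : ‖z‖ ≠ 1) : IntegrableOn (fun t => a t * (t - z)⁻¹) D := by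
  obtain ⟨C, δ, hC, hδ, hb⟩ : ∃ C δ : ℝ, 0 ≤ C ∧ 0 < δ ∧ ∀ t ∈ D, ‖t - z‖ < δ → ‖a t‖ ≤ C := by
    rcases lt_or_gt_of_ne hz with h | h
    · have hK : closedBall (0 : ℂ) ((1 + ‖z‖) / 2) ⊆ D := by
        intro t ht
        rw [mem_closedBall_zero_iff] at ht
        rw [mem_ball_zero_iff]
        linarith
      obtain ⟨C, hC⟩ := (isCompact_closedBall (0 : ℂ) ((1 + ‖z‖) / 2)).exists_bound_of_continuousOn
        (ha.mono hK)
      refine ⟨max C 0, (1 - ‖z‖) / 2, le_max_right _ _, by linarith, fun t _ ht => ?_⟩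
      refine (hC t ?_).trans (le_max_left _ _)
      rw [mem_closedBall_zero_iff]
      have := norm_sub_norm_le t z
      linarith
    · refine ⟨0, ‖z‖ - 1, le_rfl, by linarith, fun t ht1 ht => ?_⟩
      exfalso
      rw [mem_ball_zero_iff] at ht1
      have := norm_sub_norm_le z t
      rw [norm_sub_rev] at this
      linarith
  have hbound : IntegrableOn (fun t => C * ‖t - z‖⁻¹ + (1 + ‖a t‖ ^ 2) * δ⁻¹) D := by
    refine ((inv_int z 1).const_mul C).add (Integrable.mul_const (Integrable.add ?_ h2) _)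
    exact integrableOn_const (by
      exact (measure_ball_lt_top).ne)
  refine Integrable.mono' hbound ?_ ?_
  · refine (ha.aestronglyMeasurable measurableSet_ball).mul ?_
    exact ((measurable_id.sub_const z).inv).aestronglyMeasurable
  · filter_upwards [ae_restrict_mem measurableSet_ball] with t ht
    rw [norm_mul, norm_inv]
    have hn := norm_nonneg (a t)
    have hi : 0 ≤ ‖t - z‖⁻¹ := inv_nonneg.2 (norm_nonneg _)
    have hdi : 0 ≤ δ⁻¹ := inv_nonneg.2 hδ.le
    rcases lt_or_ge ‖t - z‖ δ with h | h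
    · have h1 := mul_le_mul_of_nonneg_right (hb t ht h) hi
      have h3 : 0 ≤ (1 + ‖a t‖ ^ 2) * δ⁻¹ := by positivity
      linarith
    · have h1 : ‖t - z‖⁻¹ ≤ δ⁻¹ := inv_anti₀ hδ h
      have h3 : ‖a t‖ ≤ 1 + ‖a t‖ ^ 2 := by nlinarith [sq_nonneg (‖a t‖ - 1)]
      have h4 : ‖a t‖ * ‖t - z‖⁻¹ ≤ (1 + ‖a t‖ ^ 2) * δ⁻¹ :=
        mul_le_mul h3 h1 hi (by positivity)
      have h5 : 0 ≤ C * ‖t - z‖⁻¹ := mul_nonneg hC hi
      linarith

theorem hWCP : StWCP := by
  intro W hWc hWh hW1 hW2 hW0 z hz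
  set V : ℂ → ℂ := fun t => W t - t with hVdef
  have hVc : Continuous V := hWc.sub continuous_id
  have hVh : DifferentiableOn ℂ V {z : ℂ | 1 < ‖z‖} := hWh.sub differentiableOn_id
  have hV1 : ContDiffOn ℝ 1 V D := hW1.sub contDiffOn_id
  have hVd : ∀ t ∈ D, dzb V t = dzb W t := by
    intro t ht
    have hWd : DifferentiableAt ℝ W t :=
      (hW1.contDiffAt (isOpen_ball.mem_nhds ht)).differentiableAt one_ne_zero
    have := Pool.Agent.Helper68.QC.dzb_sub hWd (differentiableAt_fun_id (𝕜 := ℝ) (x := t))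
    rw [Pool.Agent.Helper68.QC.dzb_id, sub_zero] at this
    exact this
  have hdc : ContinuousOn (dzb W) D := by
    have h1 : ContinuousOn (fderiv ℝ W) D := hW1.continuousOn_fderiv_of_isOpen isOpen_ball le_rfl
    unfold dzb
    exact ((h1.clm_apply continuousOn_const).add
      (continuousOn_const.mul (h1.clm_apply continuousOn_const))).div_const 2
  have hk := kernel_int (dzb W) hdc hW2 z hz
  have hkV : IntegrableOn (fun t => dzb V t * (t - z)⁻¹) D := by
    refine hk.congr_fun (fun t ht => ?_) measurableSet_ball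
    rw [hVd t ht]
  have heq : ∫ t in D, dzb V t * (t - z)⁻¹ = - ∫ t in D, dzb W t / (z - t) := by
    rw [← integral_neg]
    refine setIntegral_congr_fun measurableSet_ball fun t ht => ?_
    rw [hVd t ht, div_eq_mul_inv, ← neg_sub t z, inv_neg]
    ring
  have hpi : ((Real.pi : ℝ) : ℂ) ≠ 0 := Complex.ofReal_ne_zero.2 Real.pi_ne_zero
  refine ⟨?_, ?_⟩
  · refine hk.neg.congr_fun (fun t ht => ?_) measurableSet_ball
    simp only [Pi.neg_apply]
    rw [div_eq_mul_inv, ← neg_sub t z, inv_neg]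
    ring
  · have hVz : W z - z = V z := rfl
    rw [hVz]
    have hI := Complex.I_ne_zero
    rcases lt_or_gt_of_ne hz with h | h
    · have e1 := inner_in V hVc hV1 z h hkV
      rw [outer_in V hVc hVh hW0 z h, heq] at e1
      have e2 : Complex.I * ((Real.pi : ℂ) * V z - ∫ t in D, dzb W t / (z - t)) = 0 := by
        linear_combination (-1 / 2 : ℂ) * e1
      have e3 := (mul_eq_zero.1 e2).resolve_left hI
      rw [sub_eq_zero] at e3
      rw [← e3, ← mul_assoc, inv_mul_cancel₀ hpi, one_mul]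
    · have e1 := inner_out V hVc hV1 z h hkV
      rw [outer_out V hVc hVh hW0 z h, heq] at e1
      have e2 : Complex.I * ((Real.pi : ℂ) * V z - ∫ t in D, dzb W t / (z - t)) = 0 := by
        linear_combination (-1 / 2 : ℂ) * e1
      have e3 := (mul_eq_zero.1 e2).resolve_left hI
      rw [sub_eq_zero] at e3
      rw [← e3, ← mul_assoc, inv_mul_cancel₀ hpi, one_mul]

end Pool.Agent.Helper34.QD
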